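import Pool.Agent.RHO.Stmts3

set_option autoImplicit false

/-!
Row MG3 of table ca0: few bad matrices.
-/

namespace Pool.Agent.RHO.H85c

open Finset

variable {A D : ℕ}

/-- decomposition by the last letter -/
theorem evl_last (M : Mt A D) : ∀ (d : ℕ) (m : List (Fin D) → ZMod 2) (r : ℕ) (u : Fin A → ZMod 2),
    evl M m r (d + 1) u = ∑ i, (M (r + d) i).mulVec (evl M (fun y => m (y ++ [i])) r d u) := by
  intro d
  induction d with
  | zero =>
    intro m r u
    simp only [evl, List.nil_append, Nat.add_zero]
    exact Finset.sum_congr rfl fun i _ => by rw [Matrix.mulVec_smul]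
  | succ d ih =>
    intro m r u
    have h1 : evl M m r (d + 1 + 1) u =
        ∑ i, evl M (fun y => m (i :: y)) (r + 1) (d + 1) ((M r i).mulVec u) := rfl
    rw [h1]
    have h2 : ∀ i, evl M (fun y => m (i :: y)) (r + 1) (d + 1) ((M r i).mulVec u) =
        ∑ j, (M (r + (d + 1)) j).mulVec
          (evl M (fun y => m (i :: (y ++ [j]))) (r + 1) d ((M r i).mulVec u)) := by
      intro i
      rw [ih]
      refine Finset.sum_congr rfl fun j _ => ?_
      have : r + 1 + d = r + (d + 1) := by ring
      rw [this]
    simp_rw [h2]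
    rw [Finset.sum_comm]
    refine Finset.sum_congr rfl fun j _ => ?_
    have h3 : evl M (fun y => m (y ++ [j])) r (d + 1) u =
        ∑ i, evl M (fun y => m (i :: (y ++ [j]))) (r + 1) d ((M r i).mulVec u) := rfl
    rw [h3, Matrix.mulVec_sum]

/-- only the levels `r, ..., r + d - 1` matter -/
theorem evl_loc (M M' : Mt A D) : ∀ (d : ℕ) (m : List (Fin D) → ZMod 2) (r : ℕ)
    (u : Fin A → ZMod 2), (∀ k i, r ≤ k → k < r + d → M k i = M' k i) →
    evl M m r d u = evl M' m r d u := by
  intro d
  induction d with
  | zero => intro m r u _; rfl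
  | succ d ih =>
    intro m r u h
    simp only [evl]
    refine Finset.sum_congr rfl fun i _ => ?_
    rw [h r i le_rfl (by omega)]
    exact ih _ _ _ (fun k j hk hk' => h k j (by omega) (by omega))

/-- a matrix which maps `V` to `w` -/
noncomputable def nm (w V : Fin A → ZMod 2) : Matrix (Fin A) (Fin A) (ZMod 2) :=
  open Classical in
  if h : ∃ a, V a ≠ 0 then Matrix.of (fun x c => if c = h.choose then w x * (V h.choose)⁻¹ else 0)
  else 0

theorem nm_mulVec (w V : Fin A → ZMod 2) (hV : V ≠ 0) : (nm w V).mulVec V = w := by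
  have h : ∃ a, V a ≠ 0 := by
    by_contra hn
    push Not at hn
    exact hV (funext hn)
  funext x
  unfold nm
  rw [dif_pos h]
  simp only [Matrix.mulVec, dotProduct, Matrix.of_apply]
  rw [Finset.sum_eq_single h.choose]
  · rw [if_pos rfl, mul_assoc, inv_mul_cancel₀ h.choose_spec, mul_one]
  · intro c _ hc
    rw [if_neg hc, zero_mul]
  · intro hn; exact absurd (Finset.mem_univ _) hn

/-- add a matrix at one place -/
def ad {t : ℕ} (M : Fin t → Fin D → Matrix (Fin A) (Fin A) (ZMod 2)) (d : Fin t) (i : Fin D)
    (N : Matrix (Fin A) (Fin A) (ZMod 2)) : Fin t → Fin D → Matrix (Fin A) (Fin A) (ZMod 2) :=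
  Function.update M d (Function.update (M d) i (M d i + N))

theorem xM_ad_lt {t : ℕ} (M : Fin t → Fin D → Matrix (Fin A) (Fin A) (ZMod 2)) (d : Fin t)
    (i : Fin D) (N : Matrix (Fin A) (Fin A) (ZMod 2)) (k : ℕ) (j : Fin D) (hk : k ≠ d) :
    xM (ad M d i N) k j = xM M k j := by
  unfold xM ad
  split_ifs with h
  · rw [Function.update_of_ne]
    intro hc
    exact hk (congrArg Fin.val hc)
  · rfl

theorem xM_ad {t : ℕ} (M : Fin t → Fin D → Matrix (Fin A) (Fin A) (ZMod 2)) (d : Fin t)
    (i : Fin D) (N : Matrix (Fin A) (Fin A) (ZMod 2)) (j : Fin D) :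
    xM (ad M d i N) d j = xM M d j + if j = i then N else 0 := by
  have h1 : ∀ M' : Fin t → Fin D → Matrix (Fin A) (Fin A) (ZMod 2), xM M' d j = M' d j := by
    intro M'
    unfold xM
    rw [dif_pos d.2]
  rw [h1, h1]
  unfold ad
  rw [Function.update_self]
  by_cases hj : j = i
  · subst hj
    rw [Function.update_self, if_pos rfl]
  · rw [Function.update_of_ne hj, if_neg hj, add_zero]

theorem mg3 : MG3Stmt := by
  intro A D t d m u hu
  induction d generalizing m with
  | zero =>
    rintro _ ⟨y, hy, hm⟩
    have hy0 : y = [] := List.length_eq_zero_iff.1 hy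
    subst hy0
    have : (univ.filter fun M : Fin t → Fin D → Matrix (Fin A) (Fin A) (ZMod 2) =>
        evl (xM M) m 0 0 u = 0) = ∅ := by
      rw [Finset.filter_eq_empty_iff]
      intro M _ h
      have h' : m [] • u = 0 := h
      rcases smul_eq_zero.1 h' with h1 | h1
      · exact hm h1
      · exact hu h1
    rw [this]
    simp
  | succ d ih =>
    rintro hdt ⟨y, hy, hm⟩
    have hyne : y ≠ [] := by
      rintro rfl
      simp at hy
    let i₀ := y.getLast hyne
    have hyy : y.dropLast ++ [i₀] = y := List.dropLast_append_getLast hyne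
    let m' : List (Fin D) → ZMod 2 := fun z => m (z ++ [i₀])
    have hih := ih m' (by omega) ⟨y.dropLast, by simp [hy], by
      show m (y.dropLast ++ [i₀]) ≠ 0
      rw [hyy]; exact hm⟩
    let V : (Fin t → Fin D → Matrix (Fin A) (Fin A) (ZMod 2)) → (Fin A → ZMod 2) :=
      fun M => evl (xM M) m' 0 d u
    let val : (Fin t → Fin D → Matrix (Fin A) (Fin A) (ZMod 2)) → (Fin A → ZMod 2) :=
      fun M => evl (xM M) m 0 (d + 1) u
    let dd : Fin t := ⟨d, by omega⟩
    let S : Finset (Fin t → Fin D → Matrix (Fin A) (Fin A) (ZMod 2)) :=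
      univ.filter fun M => V M ≠ 0
    -- locality
    have hloc : ∀ (m'' : List (Fin D) → ZMod 2) M N, evl (xM (ad M dd i₀ N)) m'' 0 d u =
        evl (xM M) m'' 0 d u := by
      intro m'' M N
      apply evl_loc
      intro k i _ hk
      apply xM_ad_lt
      show k ≠ d
      omega
    have hval : ∀ M N, val (ad M dd i₀ N) = val M + N.mulVec (V M) := by
      intro M N
      have e1 : ∀ M', val M' = ∑ i, (xM M' d i).mulVec (evl (xM M') (fun y => m (y ++ [i])) 0 d u) := by
        intro M'
        show evl (xM M') m 0 (d + 1) u = _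
        rw [evl_last, Nat.zero_add]
      rw [e1, e1]
      have e2 : ∀ i, (xM (ad M dd i₀ N) d i).mulVec
          (evl (xM (ad M dd i₀ N)) (fun y => m (y ++ [i])) 0 d u) =
          (xM M d i).mulVec (evl (xM M) (fun y => m (y ++ [i])) 0 d u) +
          if i = i₀ then N.mulVec (V M) else 0 := by
        intro i
        rw [hloc]
        have e3 : xM (ad M dd i₀ N) d i = xM M d i + if i = i₀ then N else 0 :=
          xM_ad M dd i₀ N i
        rw [e3, Matrix.add_mulVec]
        by_cases hi : i = i₀
        · subst hi
          rw [if_pos rfl, if_pos rfl]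
        · rw [if_neg hi, if_neg hi, Matrix.zero_mulVec]
      simp_rw [e2]
      rw [Finset.sum_add_distrib]
      simp
    -- the fibres
    have hfib : ∀ w : Fin A → ZMod 2, (S.filter fun M => val M = 0).card ≤
        (S.filter fun M => val M = w).card := by
      intro w
      apply Finset.card_le_card_of_injOn (fun M => ad M dd i₀ (nm w (V M)))
      · intro M hM
        rw [Finset.mem_coe, Finset.mem_filter, Finset.mem_filter] at hM
        rw [Finset.mem_coe, Finset.mem_filter, Finset.mem_filter]
        obtain ⟨⟨_, h1⟩, h2⟩ := hM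
        refine ⟨⟨Finset.mem_univ _, ?_⟩, ?_⟩
        · show V (ad M dd i₀ (nm w (V M))) ≠ 0
          show evl (xM (ad M dd i₀ (nm w (V M)))) m' 0 d u ≠ 0
          rw [hloc]
          exact h1
        · rw [hval, h2, zero_add, nm_mulVec w (V M) h1]
      · intro M hM M' hM' h
        have hV : V M = V M' := by
          have h1 : V (ad M dd i₀ (nm w (V M))) = V M := hloc m' M _
          have h2 : V (ad M' dd i₀ (nm w (V M'))) = V M' := hloc m' M' _
          rw [← h1, ← h2]
          exact congrArg V h
        funext k i
        have h3 := congrFun (congrFun h k) i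
        simp only [ad] at h3
        by_cases hk : k = dd
        · subst hk
          rw [Function.update_self, Function.update_self] at h3
          by_cases hi : i = i₀
          · subst hi
            rw [Function.update_self, Function.update_self, hV] at h3
            exact add_right_cancel h3
          · rwa [Function.update_of_ne hi, Function.update_of_ne hi] at h3
        · rwa [Function.update_of_ne hk, Function.update_of_ne hk] at h3
    have hcard : Fintype.card (Fin A → ZMod 2) = 2 ^ A := by
      rw [Fintype.card_fun, ZMod.card, Fintype.card_fin]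
    have hsum : (S.filter fun M => val M = 0).card * 2 ^ A ≤
        Fintype.card (Fin t → Fin D → Matrix (Fin A) (Fin A) (ZMod 2)) := by
      have h1 := Finset.card_eq_sum_card_fiberwise (s := S) (t := univ) (f := val)
        (fun _ _ => Finset.mem_coe.2 (Finset.mem_univ _))
      have h2 : ∑ _w : Fin A → ZMod 2, (S.filter fun M => val M = 0).card ≤
          ∑ w, (S.filter fun M => val M = w).card := Finset.sum_le_sum fun w _ => hfib w
      rw [Finset.sum_const, Finset.card_univ, hcard, smul_eq_mul, mul_comm] at h2
      rw [← h1] at h2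
      exact h2.trans (Finset.card_le_univ _)
    have hsub : (univ.filter fun M : Fin t → Fin D → Matrix (Fin A) (Fin A) (ZMod 2) =>
        evl (xM M) m 0 (d + 1) u = 0) ⊆
        (univ.filter fun M => V M = 0) ∪ (S.filter fun M => val M = 0) := by
      intro M hM
      rw [Finset.mem_filter] at hM
      rw [Finset.mem_union, Finset.mem_filter, Finset.mem_filter, Finset.mem_filter]
      by_cases h : V M = 0
      · exact Or.inl ⟨Finset.mem_univ _, h⟩
      · exact Or.inr ⟨⟨Finset.mem_univ _, h⟩, hM.2⟩
    have hle := (Finset.card_le_card hsub).trans (Finset.card_union_le _ _)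
    calc _ ≤ ((univ.filter fun M => V M = 0).card + (S.filter fun M => val M = 0).card) * 2 ^ A :=
          Nat.mul_le_mul_right _ hle
      _ = (univ.filter fun M => V M = 0).card * 2 ^ A +
          (S.filter fun M => val M = 0).card * 2 ^ A := by ring
      _ ≤ d * Fintype.card (Fin t → Fin D → Matrix (Fin A) (Fin A) (ZMod 2)) +
          Fintype.card (Fin t → Fin D → Matrix (Fin A) (Fin A) (ZMod 2)) :=
          Nat.add_le_add hih hsum
      _ = _ := by ring

end Pool.Agent.RHO.H85c
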